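import Pool.Agent.J4H88.ABG.Final

/-!
# Shang's vanishing conjecture for the homology of `ABG(Alt(V))` fails for `dim V = 4`

The theorem speaks of the free non-unital alternative algebra `A` on four generators `x` (on a
four-dimensional vector space), of its Allison-Benkart-Gao Lie algebra
`g = sl_3 ⊗ A ⊕ B(A)`, with `s X p = X ⊗ p`, `w p q = p ∧ q`, of the action `a` of `sl_3` on `g`
and of the homology `H_k(g, 𝕜) = Z_k / B_k` of the Chevalley-Eilenberg complex. The predicates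
`IsFreeAlt` and `IsABG` determine `A` and `g` up to isomorphism. For some `k ≥ 2` the homology has
a direct summand isomorphic to the trivial or to the adjoint `sl_3`-module.

If there were no such summands in the degrees `k ≥ 2`, the Euler characteristic of the complex
would determine the dimensions of the homogeneous components of `A` recursively, with the value
`261176` in degree `9`; but `A` maps onto the free associative algebra, so this dimension is at
least `4 ^ 9 = 262144`.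
-/

namespace Pool.Agent.Results.MP_894cc0_al.HomologyOfFreeAlternative

open Pool.Agent.J4H88.ABG

universe u

theorem result (𝕜 : Type u) [Field 𝕜] [CharZero 𝕜] :
    ∃ (A : Type u) (_ : NonUnitalNonAssocRing A) (_ : Module 𝕜 A) (_ : IsScalarTower 𝕜 A A)
      (_ : SMulCommClass 𝕜 A A) (x : Fin 4 → A) (g : Type u) (_ : LieRing g)
      (_ : LieAlgebra 𝕜 g) (s : SL3 𝕜 →ₗ[𝕜] A →ₗ[𝕜] g) (w : A →ₗ[𝕜] A →ₗ[𝕜] g)
      (a : SL3 𝕜 →ₗ[𝕜] g →ₗ[𝕜] g),
      IsFreeAlt 𝕜 A x ∧ IsABG 𝕜 A g s w a ∧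
        ∃ k, 2 ≤ k ∧ (HasTrivialSummand 𝕜 g a k ∨ HasAdjointSummand 𝕜 g a k) := by
  refine ⟨Alt 𝕜 (Fin 4), inferInstance, inferInstance, inferInstance, inferInstance, _,
    ABG 𝕜 (Alt 𝕜 (Fin 4)), inferInstance, inferInstance, sMap 𝕜 _, wMap 𝕜 _, aMap 𝕜 _,
    isFreeAlt 𝕜, isABG 𝕜 _, ?_⟩
  obtain ⟨k, hk, h | h⟩ := hh_result 𝕜
  · obtain ⟨x, r, hx, h, h'⟩ := h
    obtain ⟨z, r', h1, h2, h3, h4, h5⟩ := triv_of_HH 𝕜 _ _ k x r hx h h'
    exact ⟨k, hk, Or.inl ⟨z, r', h1, fun X => h2 (toS 𝕜 X), h3, fun X => h4 (toS 𝕜 X), h5⟩⟩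
  · obtain ⟨f, r, hr, h, h'⟩ := h
    obtain ⟨f', r', h1, h2, h3, h4, h5⟩ := adj_of_HH 𝕜 _ _ k f r hr h h'
    refine ⟨k, hk, Or.inr ⟨f' ∘ₗ (toS 𝕜).toLinearMap, (toS 𝕜).symm.toLinearMap ∘ₗ r',
      fun X => h1 _, fun X Y C hC => ?_, fun u hu => ?_, fun X u hu => ?_, fun X => ?_⟩⟩
    · have hC' : toS 𝕜 C = ⁅toS 𝕜 X, toS 𝕜 Y⁆ := Subtype.ext hC
      have := h2 (toS 𝕜 X) (toS 𝕜 Y)
      rw [← hC'] at this
      exact this
    · rw [LinearMap.comp_apply, h3 u hu, map_zero]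
    · have := congrArg Subtype.val (h4 (toS 𝕜 X) u hu)
      exact this
    · have := congrArg (toS 𝕜).symm (h5 (toS 𝕜 X))
      rw [LinearEquiv.symm_apply_apply] at this
      exact this

end Pool.Agent.Results.MP_894cc0_al.HomologyOfFreeAlternative
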